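import Pool.Agent.Helper71_HNF.StmtR

/-!
# HNF: module E2LOC
-/

set_option autoImplicit false

namespace Pool.Agent.HNF.H48

open Topology Set Pool.Agent.HNF

section

variable {G : Type} [Group G] [TopologicalSpace G]

theorem relI_loc (I : Idx) (N : LNorm G) (q : ℕ → G) (h h' : ℕ → R2 G) (t i : ℕ)
    (hp : h (I.par t) = h' (I.par t)) (ht : h (I.th t) = h' (I.th t)) (x : G) :
    RelI I N q (D2 h) t i x ↔ RelI I N q (D2 h') t i x := by
  simp only [RelI, Rel, D2, hp, ht]

theorem eps0_loc (q : ℕ → G) (h h' : ℕ → R2 G) (o j tN i : ℕ)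
    (ho : h o = h' o) (hN : h tN = h' tN) :
    eps0 q (D2 h) o j tN i = eps0 q (D2 h') o j tN i := by
  simp only [eps0, D2, ho, hN]

theorem qlt_loc (I : Idx) (N : LNorm G) (q : ℕ → G) (h h' : ℕ → R2 G) (w t : ℕ)
    (hh : ∀ s < t, h s = h' s) : Qlt I N q (D2 h) w t = Qlt I N q (D2 h') w t := by
  have key : ∀ h h' : ℕ → R2 G, (∀ s < t, h s = h' s) →
      Qlt I N q (D2 h) w t ⊆ Qlt I N q (D2 h') w t := by
    intro h h' hh x hx
    obtain ⟨t', hw, ht', i, hi, ⟨y, hy⟩, hx⟩ := hx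
    have h0 : 0 < t' := lt_of_le_of_lt (Nat.zero_le _) hw
    refine ⟨t', hw, ht', i, hi, ⟨y, ?_⟩, ?_⟩
    · exact (relI_loc I N q h h' t' i (hh _ ((I.par_lt t' h0).trans ht'))
        (hh _ ((I.th_lt t' h0).trans ht')) y).1 hy
    · rw [hx]
      simp only [D2, hh t' ht']
  exact Subset.antisymm (key h h' hh) (key h' h fun s hs => (hh s hs).symm)

theorem cst_loc (I : Idx) (q : ℕ → G) (h h' : ℕ → R2 G) (t : ℕ) (ht : 0 < t)
    (hh : ∀ s < t, h s = h' s) : Cst I q (D2 h) t = Cst I q (D2 h') t := by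
  have key : ∀ h h' : ℕ → R2 G, (∀ s < t, h s = h' s) →
      Cst I q (D2 h) t ⊆ Cst I q (D2 h') t := by
    intro h h' hh x hx
    have hp : h (I.par t) = h' (I.par t) := hh _ (I.par_lt t ht)
    rcases hx with (⟨t', ht', i, hi, hx⟩ | ⟨i, hi, hx⟩) | ⟨i, hi, o, ho, j, hj, tN, hN, i', hi', hx⟩
    · refine Or.inl (Or.inl ⟨t', ht', i, hi, ?_⟩)
      rw [hx]
      simp only [D2, hh t' ht']
    · refine Or.inl (Or.inr ⟨i, hi, ?_⟩)
      rw [hx]
      simp only [D2, hp]
    · refine Or.inr ⟨i, hi, o, ho, j, hj, tN, hN, i', hi', ?_⟩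
      rw [hx, ← eps0_loc q h h' o j tN i' (hh o ho) (hh tN hN)]
      simp only [D2, hp]
  exact Subset.antisymm (key h h' hh) (key h' h fun s hs => (hh s hs).symm)

end

/-- E2LOC -/
theorem e2loc : E2LocStmt := by
  intro G _ _ I N q Γ t h h' a hh Q
  have hp : 0 < t → h (I.par t) = h' (I.par t) := fun ht => hh _ (I.par_lt t ht)
  have hth : 0 < t → h (I.th t) = h' (I.th t) := fun ht => hh _ (I.th_lt t ht)
  have hth' : ∀ s, 0 < s → s < t → h (I.th s) = h' (I.th s) :=
    fun s hs hst => hh _ ((I.th_lt s hs).trans hst)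
  have hrel : 0 < t → ∀ i y, RelI I N q (D2 h) t i y ↔ RelI I N q (D2 h') t i y :=
    fun ht i y => relI_loc I N q h h' t i (hp ht) (hth ht) y
  exact
  { zero := Q.zero
    v_mem := fun ht => by rw [← hp ht]; exact Q.v_mem ht
    g_eq := fun ht => by rw [← hp ht]; exact Q.g_eq ht
    A_open := Q.A_open
    A_one := Q.A_one
    L_open := Q.L_open
    L_one := Q.L_one
    nest := fun ht => by rw [← hp ht]; exact Q.nest ht
    gauge := Q.gauge
    right := fun ht => by rw [← hth ht]; exact Q.right ht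
    inv := fun t' ht' h0 => by
      rw [← hh t' ht', ← hth' t' h0 ht']; exact Q.inv t' ht' h0
    AB := Q.AB
    own := Q.own
    β := Q.β
    srv_self := Q.srv_self
    srv := fun w hw => by
      have ht : 0 < t := lt_of_le_of_lt (Nat.zero_le _) hw
      have h1 := Q.srv w hw
      rw [hh w hw, qlt_loc I N q h h' w t hh] at h1
      have h2 : {x : G × ℝ | ∃ i < I.rd t, (∃ y, RelI I N q (D2 h) t i y) ∧
          x = (a.g * q i, lev I t / 8)} = {x : G × ℝ | ∃ i < I.rd t,
          (∃ y, RelI I N q (D2 h') t i y) ∧ x = (a.g * q i, lev I t / 8)} := by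
        ext x
        simp only [Set.mem_ofPred_eq, hrel ht]
      rw [h2] at h1
      exact h1
    η_pos := Q.η_pos
    η_le := fun s hs => by rw [← hh s hs]; exact Q.η_le s hs
    η_small := Q.η_small
    η_conj := fun o ho j hj tN hN h0 i hi g hg => by
      rw [← hth' tN h0 hN, ← eps0_loc q h h' o j tN i (hh o ho) (hh tN hN)]
      exact Q.η_conj o ho j hj tN hN h0 i hi g hg
    served := fun ht x hx c hc => by
      rw [← qlt_loc I N q h h' _ t hh] at hx
      rw [← cst_loc I q h h' t ht hh] at hc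
      exact Q.served ht x hx c hc
    avoid := fun ht i hi hy c hc => by
      rw [← cst_loc I q h h' t ht hh] at hc
      rw [← hp ht]
      obtain ⟨y, hy⟩ := hy
      exact Q.avoid ht i hi ⟨y, (hrel ht i y).2 hy⟩ c hc }

end Pool.Agent.HNF.H48
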