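import Pool.Agent.Helper71_HNF.Stmt

/-!
# HNF: module GAU
-/

set_option autoImplicit false

namespace Pool.Agent.HNF.H48

open Topology Set Filter

/-- GAU -/
theorem gau : GauStmt := by
  intro G _ _
  let := TopologicalSpace.upgradeIsCompletelyMetrizable G
  refine ⟨{
    Sm := fun n S => ∀ x ∈ S, ∀ y ∈ S, dist x y ≤ (1 / 2 : ℝ) ^ n
    mono := fun n S T hST hT x hx y hy => hT x (hST hx) y (hST hy)
    anti := fun m n S hmn hS x hx y hy => (hS x hx y hy).trans
      (pow_le_pow_of_le_one (by norm_num) (by norm_num) hmn)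
    nhds := ?_
    inter := ?_ }⟩
  · intro n g
    have h2 : (0 : ℝ) < (1 / 2 : ℝ) ^ n / 2 := by positivity
    refine ⟨Metric.ball g ((1 / 2 : ℝ) ^ n / 2), Metric.ball_mem_nhds g h2, ?_⟩
    intro x hx y hy
    rw [Metric.mem_ball] at hx hy
    have h3 := dist_triangle_right x y g
    linarith
  · intro C hcl hne hdec hSm
    choose x hx using hne
    have hanti : ∀ m n, m ≤ n → C n ⊆ C m := by
      intro m n hmn
      induction n, hmn using Nat.le_induction with
      | base => exact Subset.rfl
      | succ n _ ih => exact (hdec n).trans ih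
    have hcau : CauchySeq x := by
      refine cauchySeq_of_le_tendsto_0 (fun n => (1 / 2 : ℝ) ^ n) ?_ ?_
      · intro n m N hn hm
        exact hSm N _ (hanti N n hn (hx n)) _ (hanti N m hm (hx m))
      · exact tendsto_pow_atTop_nhds_zero_of_lt_one (by norm_num) (by norm_num)
    obtain ⟨y, hy⟩ := cauchySeq_tendsto_of_complete hcau
    refine ⟨y, mem_iInter.2 fun k => ?_⟩
    exact (hcl k).mem_of_tendsto hy
      (eventually_atTop.2 ⟨k, fun n hn => hanti k n hn (hx n)⟩)

end Pool.Agent.HNF.H48
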